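import Pool.Agent.R226.TC

/-!
# Tridiagonal counterexample of order 600: the scalar recursion
-/

set_option autoImplicit false
set_option linter.unusedSimpArgs false
set_option linter.unusedVariables false

open Filter Topology

namespace Pool.Agent.Run7.h622.TD

open Pool.Agent.R226.TD (chi chi_cont)

noncomputable section

/-- weights -/
def hh (j : ℕ) : ℝ :=
  if j = 0 then 1 else if j = 1 then 280 else if j = 2 then 300 else if j = 3 then 260 else 12

/-- resistances -/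
def rr (τ : ℝ) (j : ℕ) : ℝ :=
  if j = 0 then 1 / 220 else if j = 1 then 1 / 46000 else if j = 2 then 1 / 62000 else
    if j = 3 then 1 / 54000 else τ

/-- potential and flux -/
def S (τ : ℝ) (t : ℂ) : ℕ → ℂ × ℂ
  | 0 => (t, Complex.I * (hh 0 : ℂ) ^ 2 * t - (hh 0 : ℂ))
  | j + 1 => ((S τ t j).1 + (rr τ j : ℂ) * (S τ t j).2,
      (S τ t j).2 + Complex.I * (hh (j + 1) : ℂ) ^ 2 * ((S τ t j).1 + (rr τ j : ℂ) * (S τ t j).2) -
        (hh (j + 1) : ℂ))

/-- potential -/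
def g (τ : ℝ) (t : ℂ) (j : ℕ) : ℂ := (S τ t j).1
/-- flux -/
def Ph (τ : ℝ) (t : ℂ) (j : ℕ) : ℂ := (S τ t j).2

lemma g_zero (τ : ℝ) (t : ℂ) : g τ t 0 = t := rfl
lemma Ph_zero (τ : ℝ) (t : ℂ) : Ph τ t 0 = Complex.I * (hh 0 : ℂ) ^ 2 * t - (hh 0 : ℂ) := rfl
lemma g_succ (τ : ℝ) (t : ℂ) (j : ℕ) : g τ t (j + 1) = g τ t j + (rr τ j : ℂ) * Ph τ t j := rfl
lemma Ph_succ (τ : ℝ) (t : ℂ) (j : ℕ) : Ph τ t (j + 1) = Ph τ t j +
    Complex.I * (hh (j + 1) : ℂ) ^ 2 * g τ t (j + 1) - (hh (j + 1) : ℂ) := rfl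

lemma affine (τ : ℝ) (t : ℂ) (j : ℕ) : g τ t j = g τ 0 j + t * (g τ 1 j - g τ 0 j) ∧
    Ph τ t j = Ph τ 0 j + t * (Ph τ 1 j - Ph τ 0 j) := by
  induction j with
  | zero =>
    simp only [g_zero, Ph_zero]
    constructor <;> ring
  | succ j ih =>
    obtain ⟨h1, h2⟩ := ih
    have h3 : g τ t (j + 1) = g τ 0 (j + 1) + t * (g τ 1 (j + 1) - g τ 0 (j + 1)) := by
      rw [g_succ, g_succ, g_succ, h1, h2]
      ring
    refine ⟨h3, ?_⟩
    rw [Ph_succ, Ph_succ, Ph_succ, h3, h2]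
    ring

lemma cont (t : ℂ) (j : ℕ) : Continuous (fun τ => g τ t j) ∧ Continuous (fun τ => Ph τ t j) := by
  induction j with
  | zero =>
    simp only [g_zero, Ph_zero]
    exact ⟨continuous_const, continuous_const⟩
  | succ j ih =>
    obtain ⟨h1, h2⟩ := ih
    have hr : Continuous (fun τ : ℝ => ((rr τ j : ℝ) : ℂ)) := by
      unfold rr
      split_ifs
      · exact continuous_const
      · exact continuous_const
      · exact continuous_const
      · exact continuous_const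
      · exact Complex.continuous_ofReal
    have h3 : Continuous (fun τ => g τ t (j + 1)) := by
      simp only [g_succ]
      exact h1.add (hr.mul h2)
    refine ⟨h3, ?_⟩
    simp only [Ph_succ]
    exact (h2.add (continuous_const.mul h3)).sub continuous_const

lemma zero_tau (t : ℂ) (k : ℕ) : g 0 t (4 + k) = g 0 t 4 ∧
    Ph 0 t (4 + k) = Ph 0 t 4 + k * (Complex.I * 144 * g 0 t 4 - 12) := by
  induction k with
  | zero => simp
  | succ k ih =>
    obtain ⟨h1, h2⟩ := ih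
    have hr : rr 0 (4 + k) = 0 := by
      unfold rr
      rw [if_neg (by omega), if_neg (by omega), if_neg (by omega), if_neg (by omega)]
    have h3 : g 0 t (4 + (k + 1)) = g 0 t 4 := by
      rw [show 4 + (k + 1) = (4 + k) + 1 by ring, g_succ, h1, hr]
      simp
    refine ⟨h3, ?_⟩
    have hh1 : hh (4 + k + 1) = 12 := by
      unfold hh
      rw [if_neg (by omega), if_neg (by omega), if_neg (by omega), if_neg (by omega)]
    rw [show 4 + (k + 1) = (4 + k) + 1 by ring] at h3 ⊢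
    rw [Ph_succ, h2, h3, hh1]
    push_cast
    ring

lemma ch0 : ((hh 0 : ℝ) : ℂ) = 1 := by simp [hh]
lemma ch1 : ((hh 1 : ℝ) : ℂ) = 280 := by simp [hh]
lemma ch2 : ((hh 2 : ℝ) : ℂ) = 300 := by simp [hh]
lemma ch3 : ((hh 3 : ℝ) : ℂ) = 260 := by simp [hh]
lemma ch4 : ((hh 4 : ℝ) : ℂ) = 12 := by simp [hh]
lemma cr0 (τ : ℝ) : ((rr τ 0 : ℝ) : ℂ) = 1 / 220 := by simp [rr]
lemma cr1 (τ : ℝ) : ((rr τ 1 : ℝ) : ℂ) = 1 / 46000 := by simp [rr]
lemma cr2 (τ : ℝ) : ((rr τ 2 : ℝ) : ℂ) = 1 / 62000 := by simp [rr]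
lemma cr3 (τ : ℝ) : ((rr τ 3 : ℝ) : ℂ) = 1 / 54000 := by simp [rr]

lemma Ph0 (τ : ℝ) (t : ℂ) : Ph τ t 0 = t * ((0) + (1) * Complex.I) + ((-(1)) + (0) * Complex.I) := by
  rw [Ph_zero, ch0]; ring

lemma g1 (τ : ℝ) (t : ℂ) : g τ t 1 = t * ((1) + (1 / 220) * Complex.I) + ((-(1 / 220)) + (0) * Complex.I) := by
  rw [g_succ, g_zero, Ph0, cr0]; ring

lemma Ph1 (τ : ℝ) (t : ℂ) : Ph τ t 1 = t * ((-(3920 / 11)) + (78401) * Complex.I) + ((-(281)) + (-(3920 / 11)) * Complex.I) := by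
  rw [Ph_succ, g1, Ph0, ch1]
  linear_combination (78400 * (t * (1 / 220) + (0))) * Complex.I_sq

lemma g2 (τ : ℝ) (t : ℂ) : g τ t 2 = t * ((6276 / 6325) + (864711 / 506000) * Complex.I) + ((-(5391 / 506000)) + (-(49 / 6325)) * Complex.I) := by
  rw [g_succ, g1, Ph1, cr1]; ring

lemma Ph2 (τ : ℝ) (t : ℂ) : Ph τ t 2 = t * ((-(39002155 / 253)) + (42429053 / 253) * Complex.I) + ((29407 / 253) + (-(332755 / 253)) * Complex.I) := by
  rw [Ph_succ, g2, Ph1, ch2]
  linear_combination (90000 * (t * (864711 / 506000) + (-(49 / 6325)))) * Complex.I_sq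

lemma g3 (τ : ℝ) (t : ℂ) : g τ t 3 = t * ((-(937507 / 627440)) + (34617547 / 7843000) * Complex.I) + ((-(68857 / 7843000)) + (-(18171 / 627440)) * Complex.I) := by
  rw [g_succ, g2, Ph2, cr2]; ring

lemma Ph3 (τ : ℝ) (t : ℂ) : Ph τ t 3 = t * ((-(17746064911 / 39215)) + (523107228 / 7843) * Complex.I) + ((14226932 / 7843) + (-(74850691 / 39215)) * Complex.I) := by
  rw [Ph_succ, g3, Ph2, ch3]
  linear_combination (67600 * (t * (34617547 / 7843000) + (-(18171 / 627440)))) * Complex.I_sq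

lemma g4 (τ : ℝ) (t : ℂ) : g τ t 4 = t * ((-(5227537759 / 529402500)) + (398742461 / 70587000) * Complex.I) + ((228449 / 9207000) + (-(17022227 / 264701250)) * Complex.I) := by
  rw [g_succ, g3, Ph3, cr3]; ring

lemma Ph4 (τ : ℝ) (t : ℂ) : Ph τ t 4 = t * ((-(444449107697 / 980375)) + (959915901464 / 14705625) * Complex.I) + ((26635207816 / 14705625) + (-(5603293171 / 2941125)) * Complex.I) := by
  rw [Ph_succ, g4, Ph3, ch4]
  linear_combination (144 * (t * (398742461 / 70587000) + (-(17022227 / 264701250)))) * Complex.I_sq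

/-- the final flux at `τ = 0` -/
lemma Phn (t : ℂ) : Ph 0 t 599 = t * ((-(918952636287 / 980375)) + (-(11481623964956 / 14705625)) * Complex.I) + ((2662845836 / 14705625) + (649355959 / 2941125) * Complex.I) := by
  have h := (zero_tau t 595).2
  rw [show 4 + 595 = 599 by norm_num] at h
  rw [h, Ph4, g4]
  push_cast
  linear_combination (595 * 144 * (t * (398742461 / 70587000) + (-(17022227 / 264701250)))) * Complex.I_sq

/-- the key example -/
theorem key : ∃ τ : ℝ, 0 < τ ∧ ∃ t : ℂ, Ph τ t 599 = 0 ∧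
    0 < chi (g τ t 0) (g τ t 1) ∧ 0 < chi (g τ t 1) (g τ t 4) ∧ 0 < chi (g τ t 4) (g τ t 0) := by
  let D : ℝ → ℂ := fun τ => Ph τ 1 599 - Ph τ 0 599
  let T : ℝ → ℂ := fun τ => - Ph τ 0 599 / D τ
  have hD : Continuous D := (cont 1 599).2.sub (cont 0 599).2
  have hD0 : D 0 = ((-(918952636287 / 980375)) + (-(11481623964956 / 14705625)) * Complex.I) := by
    show Ph 0 1 599 - Ph 0 0 599 = _
    rw [Phn, Phn]; ring
  have hD0' : D 0 ≠ 0 := by
    rw [hD0]
    intro h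
    have := congrArg Complex.re h
    norm_num at this
  have hT : ContinuousAt T 0 :=
    ((cont 0 599).2.neg.continuousAt).div hD.continuousAt hD0'
  have hT0 : T 0 = (((73983742718477835628000 / 321834327113888082874014961) : ℝ) : ℂ) + (((14180758215278336794259 / 321834327113888082874014961) : ℝ) : ℂ) * Complex.I := by
    show - Ph 0 0 599 / D 0 = _
    rw [div_eq_iff hD0', hD0, Phn]
    apply Complex.ext <;> norm_num
  have hg : ∀ j, ContinuousAt (fun τ => g τ (T τ) j) 0 := by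
    intro j
    have : (fun τ => g τ (T τ) j) = fun τ => g τ 0 j + T τ * (g τ 1 j - g τ 0 j) := by
      funext τ
      exact (affine τ (T τ) j).1
    rw [this]
    exact (cont 0 j).1.continuousAt.add
      (hT.mul ((cont 1 j).1.continuousAt.sub (cont 0 j).1.continuousAt))
  have c1 : 0 < chi (g 0 (T 0) 0) (g 0 (T 0) 1) := by
    rw [hT0, g_zero, g1]
    unfold chi
    norm_num
  have c2 : 0 < chi (g 0 (T 0) 1) (g 0 (T 0) 4) := by
    rw [hT0, g1, g4]
    unfold chi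
    norm_num
  have c3 : 0 < chi (g 0 (T 0) 4) (g 0 (T 0) 0) := by
    rw [hT0, g_zero, g4]
    unfold chi
    norm_num
  have e0 : ∀ᶠ τ in 𝓝 (0 : ℝ), D τ ≠ 0 := hD.continuousAt.eventually_ne hD0'
  have e1 := (chi_cont (hg 0) (hg 1)).eventually (lt_mem_nhds c1)
  have e2 := (chi_cont (hg 1) (hg 4)).eventually (lt_mem_nhds c2)
  have e3 := (chi_cont (hg 4) (hg 0)).eventually (lt_mem_nhds c3)
  have e := (e0.and (e1.and (e2.and e3))).filter_mono (nhdsWithin_le_nhds (s := Set.Ioi (0 : ℝ)))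
  obtain ⟨τ, ⟨h0, h1, h2, h3⟩, hτ⟩ := (e.and self_mem_nhdsWithin).exists
  refine ⟨τ, hτ, T τ, ?_, h1, h2, h3⟩
  rw [(affine τ (T τ) 599).2]
  show Ph τ 0 599 + (- Ph τ 0 599 / D τ) * D τ = 0
  rw [div_mul_cancel₀ _ h0]
  ring

end

end Pool.Agent.Run7.h622.TD
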